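import Pool.Agent.Q224.AC.Runs

/-!
# Approximate covering of the segment is impossible for asynchronous oblivious sensors
-/

namespace Pool.Agent.Q224.AC

open Set

/-- The configuration of three sensors used to see that a protocol must move somebody. -/
noncomputable def three : Fin (1 + 2) → ℝ := ![0, 1 / 4, 1]

theorem three_admissible (P : Protocol) (h : P ⟨(1 : ℝ), (3 : ℝ), 0⟩ = 0) :
    Admissible P (fun _ => 1 / 4) (exec fun _ => three) := by
  have hview : view (1 / 4) three 1 = ⟨(1 : ℝ), (3 : ℝ), 0⟩ := by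
    have h1 := view_pos (c := 1 / 4) (by norm_num) three 1 (α := 1 / 4) (β := 3 / 4) (by norm_num)
      (by norm_num) ⟨0, by simp [three]⟩ ⟨2, by simp [three]; norm_num⟩
      (by intro j; fin_cases j <;> simp [three]; norm_num)
      (by intro j; fin_cases j <;> simp [three] <;> norm_num)
      (by intro j; fin_cases j <;> simp [three] <;> norm_num)
    rw [h1]
    norm_num
  refine admissible_of_run P _ _ 1 one_pos ?_ (fun _ => rfl) (fun _ => rfl) ?_
  · change StrictMono three
    rw [Fin.strictMono_iff_lt_succ]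
    intro i
    fin_cases i <;> simp [three]
    norm_num
  · intro i hi0 hi1
    have hi : i = 1 := by
      fin_cases i
      · exact absurd rfl hi0
      · rfl
      · exact absurd rfl hi1
    subst hi
    refine cycles_of_active P _ _ _ 1 (fun _ => True) ?_ (fun t ht => absurd trivial ht) ?_
    · simpa using Set.infinite_univ
    · intro t _
      have : dest P (1 / 4) three 1 = three 1 := by
        unfold dest
        rw [hview, h, mul_zero, add_zero]
      rw [this]
      exact Allowed.full _ _ _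

/-- The protocol fails in some admissible execution in which all sensors have the same frame. -/
theorem exists_bad (P : Protocol) : ∃ (m : ℕ) (c : ℝ), c ≠ 0 ∧ ∃ x : ℝ → Fin (m + 2) → ℝ,
    Admissible P (fun _ => c) x ∧ ∃ ε : ℝ, 0 < ε ∧ ∀ t, 0 ≤ t → ¬ CoveredUpToOrder ε (x t) := by
  by_contra hcon
  push Not at hcon
  -- a sensor with neighbours at local distances `1` and `3` must move
  have hπ : P ⟨(1 : ℝ), (3 : ℝ), 0⟩ ≠ 0 := by
    intro h
    obtain ⟨t, ht, hcov⟩ := hcon 1 (1 / 4) (by norm_num) _ (three_admissible P h) (1 / 8)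
      (by norm_num)
    have h3 : exec (fun _ => three) t = three := by
      funext i
      exact exec_const _ i (fun _ => rfl) ht
    rw [h3] at hcov
    obtain ⟨j, hj, hj'⟩ := exists_near 2 hcov
    revert hj hj'
    fin_cases j
    · simp [three]
      norm_num
    · simp [three]
      norm_num [abs_of_neg, abs_of_pos]
    · intro h; exact absurd rfl h
  -- the frame and the place of the frozen sensor
  obtain ⟨c, p, hc, hp0, hp1, hq, hview⟩ : ∃ c p : ℝ, c ≠ 0 ∧ 0 < p ∧ p < 7 / 16 ∧
      0 < c * P ⟨(1 : ℝ), (3 : ℝ), 0⟩ ∧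
      ∀ {m : ℕ} (y : Fin (m + 2) → ℝ) (i : Fin (m + 2)), y i = p → (∃ j, y j = 0) →
        (∃ j, y j = 1 / 2) → (∀ j, y j = 0 ∨ y j = p ∨ 1 / 2 ≤ y j) → (∀ j, j ≠ i → y j ≠ y i) →
        view c y i = ⟨(1 : ℝ), (3 : ℝ), 0⟩ := by
    rcases lt_or_gt_of_ne hπ with h | h
    · refine ⟨-(1 / 8), 3 / 8, by norm_num, by norm_num, by norm_num, by linarith, ?_⟩
      intro m y i hi hL hR hall hne
      have h1 := view_neg (c := 1 / 8) (by norm_num) y i (α := 3 / 8) (β := 1 / 8) (by norm_num)
        (by norm_num) (by rw [hi]; norm_num; exact hL) (by rw [hi]; norm_num; norm_num at hR; exact hR)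
        (by
          intro j hj
          rw [hi] at hj ⊢
          rcases hall j with h | h | h
          · rw [h]; norm_num
          · linarith
          · linarith)
        (by
          intro j hj
          rw [hi] at hj ⊢
          rcases hall j with h | h | h
          · linarith
          · linarith
          · linarith) hne
      rw [h1]
      norm_num
    · refine ⟨1 / 8, 1 / 8, by norm_num, by norm_num, by norm_num, by linarith, ?_⟩
      intro m y i hi hL hR hall hne
      have h1 := view_pos (c := 1 / 8) (by norm_num) y i (α := 1 / 8) (β := 3 / 8) (by norm_num)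
        (by norm_num) (by rw [hi]; norm_num; exact hL) (by rw [hi]; norm_num; norm_num at hR; exact hR)
        (by
          intro j hj
          rw [hi] at hj ⊢
          rcases hall j with h | h | h
          · rw [h]; norm_num
          · linarith
          · linarith)
        (by
          intro j hj
          rw [hi] at hj ⊢
          rcases hall j with h | h | h
          · linarith
          · linarith
          · linarith) hne
      rw [h1]
      norm_num
  -- the point of the crash
  set e : ℝ := min (c * P ⟨(1 : ℝ), (3 : ℝ), 0⟩) (1 / 16) with he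
  have he0 : 0 < e := lt_min hq (by norm_num)
  have he1 : e ≤ 1 / 16 := min_le_right _ _
  have he2 : e ≤ c * P ⟨(1 : ℝ), (3 : ℝ), 0⟩ := min_le_left _ _
  set ℓ : ℝ := 1 - p with hℓ
  have hℓ0 : 0 < ℓ := by rw [hℓ]; linarith
  set C : ℝ := p + e with hC
  have hC1 : C < 1 / 2 := by rw [hC]; linarith
  -- the number of sensors
  obtain ⟨M, hM⟩ := exists_nat_gt (max (2 * ℓ / e) (2 / p))
  have hM1 : 2 * ℓ / e < M := (le_max_left _ _).trans_lt hM
  have hM2 : 2 / p < M := (le_max_right _ _).trans_lt hM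
  have hMpos : (0 : ℝ) < M := lt_trans (by positivity) hM2
  -- the small world
  let z0 : Fin (M + 1 + 2) → ℝ := fun j =>
    if j = 0 then 0 else (1 / 2 + ((j : ℕ) - 1 : ℝ) / (2 * (M + 1)) - p) / ℓ
  have hz00 : z0 0 = 0 := by simp [z0]
  have hz0s : ∀ j, j ≠ 0 → p + ℓ * z0 j = 1 / 2 + ((j : ℕ) - 1 : ℝ) / (2 * (M + 1)) := by
    intro j hj
    simp only [z0]
    rw [if_neg hj]
    field_simp
    ring
  have hz0ge : ∀ j, j ≠ 0 → 1 / 2 ≤ p + ℓ * z0 j := by
    intro j hj
    rw [hz0s j hj]
    have h1 : (1 : ℝ) ≤ (j : ℕ) := by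
      have : (j : ℕ) ≠ 0 := fun h => hj (Fin.ext h)
      exact_mod_cast Nat.one_le_iff_ne_zero.2 this
    have : 0 ≤ ((j : ℕ) - 1 : ℝ) / (2 * (M + 1)) := by
      apply div_nonneg <;> linarith
    linarith
  have hz01 : z0 (Fin.last (M + 1 + 1)) = 1 := by
    have h1 := hz0s (Fin.last (M + 1 + 1)) (Fin.last_pos).ne'
    have h2 : p + ℓ * z0 (Fin.last (M + 1 + 1)) = 1 := by
      rw [h1, Fin.val_last]
      push_cast
      field_simp
      ring
    have h3 : ℓ * z0 (Fin.last (M + 1 + 1)) = ℓ * 1 := by rw [hℓ] at h2 ⊢; linarith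
    exact mul_left_cancel₀ hℓ0.ne' h3
  have hmono : StrictMono z0 := by
    rw [Fin.strictMono_iff_lt_succ]
    intro i
    have h2 : i.succ ≠ 0 := Fin.succ_ne_zero _
    have h3 := hz0s i.succ h2
    have h4 : p + ℓ * z0 i.castSucc < p + ℓ * z0 i.succ := by
      by_cases h1 : i.castSucc = 0
      · rw [h1, hz00, mul_zero, add_zero]
        have := hz0ge i.succ h2
        linarith
      · rw [hz0s _ h1, h3, Fin.val_castSucc, Fin.val_succ]
        push_cast
        have : ((i : ℕ) - 1 : ℝ) / (2 * (M + 1)) < ((i : ℕ) + 1 - 1 : ℝ) / (2 * (M + 1)) := by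
          gcongr
          linarith
        linarith
    nlinarith
  -- the run of the small world comes close to its left end
  have hadm := rigid_admissible P (c / ℓ) z0 hmono hz00 hz01
  obtain ⟨t, ht, hcov⟩ := hcon (M + 1) (c / ℓ) (div_ne_zero hc hℓ0.ne') _ hadm (e / ℓ / 2)
    (by positivity)
  obtain ⟨j, hj, hj'⟩ := exists_near 0 hcov
  have hx0 : exec (rigid P (c / ℓ) z0) t 0 = 0 :=
    exec_const _ 0 (rigid_zero P _ z0 hz00) ht
  rw [hx0, sub_zero] at hj'
  have hsmall : 1 / (((M + 1 : ℕ) : ℝ) + 1) < e / ℓ / 2 := by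
    push_cast
    rw [div_lt_iff₀ (by linarith)]
    have h1 : 2 * ℓ < M * e := by
      rw [div_lt_iff₀ he0] at hM1
      exact hM1
    have h2 : (1 : ℝ) = (e / ℓ / 2) * (2 * ℓ / e) := by
      field_simp
    rw [h2]
    apply mul_lt_mul_of_pos_left _ (by positivity)
    linarith
  have hlt : exec (rigid P (c / ℓ) z0) t j < e / ℓ := by
    have := le_abs_self (exec (rigid P (c / ℓ) z0) t j)
    linarith
  have hex : ∃ k, ∃ j, j ≠ 0 ∧ p + ℓ * rigid P (c / ℓ) z0 k j ≤ C := by
    obtain ⟨k, hk1, hk2⟩ := exists_round ht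
    have h3 : exec (rigid P (c / ℓ) z0) t j ∈
        uIcc (rigid P (c / ℓ) z0 k j) (rigid P (c / ℓ) z0 (k + 1) j) :=
      path_mem_uIcc (fun n => rigid P (c / ℓ) z0 n j) k hk1 hk2
    have h4 : min (rigid P (c / ℓ) z0 k j) (rigid P (c / ℓ) z0 (k + 1) j) < e / ℓ :=
      h3.1.trans_lt hlt
    have h5 : ∀ v : ℝ, v < e / ℓ → p + ℓ * v ≤ C := by
      intro v hv
      rw [lt_div_iff₀ hℓ0] at hv
      rw [hC]
      linarith
    rcases min_lt_iff.1 h4 with h | h
    · exact ⟨k, j, hj, h5 _ h⟩
    · exact ⟨k + 1, j, hj, h5 _ h⟩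
  classical
  obtain ⟨j0, hj0, hj0'⟩ := Nat.find_spec hex
  have hpos : Nat.find hex ≠ 0 := by
    intro h0
    rw [h0] at hj0'
    have h1 := hz0ge j0 hj0
    have h2 : p + ℓ * z0 j0 ≤ C := hj0'
    linarith
  obtain ⟨K, hK⟩ := Nat.exists_eq_succ_of_ne_zero hpos
  have hfar : ∀ k, k ≤ K → ∀ j, j ≠ 0 → C < p + ℓ * rigid P (c / ℓ) z0 k j := by
    intro k hk j hj
    have h1 := Nat.find_min hex (m := k) (by omega)
    by_contra h2
    exact h1 ⟨j, hj, not_lt.1 h2⟩
  have hnear : p + ℓ * rigid P (c / ℓ) z0 (K + 1) (rr M K) ≤ C := by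
    rw [hK] at hj0'
    by_cases h1 : j0 = rr M K
    · rw [← h1]
      exact hj0'
    · exfalso
      have h2 : rigid P (c / ℓ) z0 (K + 1) j0 = rigid P (c / ℓ) z0 K j0 := by
        simp only [rigid]
        rw [if_neg h1]
      change p + ℓ * rigid P (c / ℓ) z0 (K + 1) j0 ≤ C at hj0'
      rw [h2] at hj0'
      exact absurd hj0' (not_le.2 (hfar K le_rfl j0 hj0))
  have hv : view c (embed p ℓ z0) 1 = ⟨(1 : ℝ), (3 : ℝ), 0⟩ := by
    have hone : embed p ℓ z0 1 = p := by
      change embed p ℓ z0 (0 : Fin (M + 1 + 2)).succ = p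
      rw [embed_succ, hz00, mul_zero, add_zero]
    apply hview _ _ hone ⟨0, rfl⟩
    · refine ⟨(1 : Fin (M + 1 + 2)).succ, ?_⟩
      rw [embed_succ, hz0s 1 (by simp)]
      simp
    · intro j
      refine Fin.cases (Or.inl rfl) (fun j => Or.inr ?_) j
      rw [embed_succ]
      by_cases hj : j = 0
      · left
        rw [hj, hz00, mul_zero, add_zero]
      · exact Or.inr (hz0ge j hj)
    · intro j hj
      rw [hone]
      revert hj
      refine Fin.cases ?_ (fun j => ?_) j
      · intro _
        rw [embed_zero]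
        exact hp0.ne
      · intro hj
        have hj' : j ≠ 0 := by
          intro h
          apply hj
          rw [h]
          rfl
        rw [embed_succ]
        have := hz0ge j hj'
        intro h
        linarith
  have H : CrashData P c p ℓ C z0 K :=
    { hc := hc
      hp := hp0
      hℓ := hℓ0
      hpℓ := by rw [hℓ]; ring
      hz0 := hz00
      hz1 := hz01
      hmono := hmono
      hpC := by rw [hC]; linarith
      hdest := by
        unfold dest
        rw [hv]
        have hone : embed p ℓ z0 1 = p := by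
          change embed p ℓ z0 (0 : Fin (M + 1 + 2)).succ = p
          rw [embed_succ, hz00, mul_zero, add_zero]
        rw [hone, hC]
        linarith
      hfar := hfar
      hnear := hnear }
  -- the crash execution is never covered
  set ε : ℝ := min (p / 2) (1 / (2 * ((M + 2) * (M + 3)))) with hε
  have hε0 : 0 < ε := lt_min (by linarith) (by positivity)
  obtain ⟨t', ht', hcov'⟩ := hcon (M + 1 + 1) c hc _ (crash_admissible H) ε hε0
  refine crash_not_covered H hε0 ?_ ?_ ht' hcov'
  · have h1 : ε ≤ p / 2 := min_le_left _ _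
    have h2 : 1 / (((M + 1 + 1 : ℕ) : ℝ) + 1) < p / 2 := by
      push_cast
      rw [div_lt_iff₀ (by linarith)]
      have h3 : 2 < M * p := by
        rw [div_lt_iff₀ hp0] at hM2
        exact hM2
      nlinarith
    linarith
  · have h1 : ε ≤ 1 / (2 * ((M + 2) * (M + 3))) := min_le_right _ _
    push_cast
    have h2 : ((M : ℝ) + 1 + 1) * (1 / ((M : ℝ) + 1 + 1 + 1) + ε) ≤
        ((M : ℝ) + 1 + 1) * (1 / ((M : ℝ) + 1 + 1 + 1) + 1 / (2 * ((M + 2) * (M + 3)))) := by
      gcongr
    refine h2.trans_lt ?_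
    have h3 : ((M : ℝ) + 1 + 1) * (1 / ((M : ℝ) + 1 + 1 + 1) + 1 / (2 * ((M + 2) * (M + 3)))) =
        (2 * (M : ℝ) + 5) / (2 * (M + 3)) := by
      field_simp
      ring
    rw [h3, div_lt_one (by positivity)]
    linarith

theorem Covered.upToOrder {m : ℕ} {ε : ℝ} {y : Fin (m + 2) → ℝ} (h : Covered ε y) :
    CoveredUpToOrder ε y := ⟨1, h⟩

theorem not_solvable : ¬ Solvable := by
  rintro ⟨P, hP⟩
  obtain ⟨m, c, hc, x, hx, ε, hε, hbad⟩ := exists_bad P
  obtain ⟨t, ht, hcov⟩ := hP m (fun _ => c) (fun _ => hc) x hx ε hε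
  exact hbad t ht hcov.upToOrder

end Pool.Agent.Q224.AC
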