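import Mathlib

/-!
# Asynchronous oblivious sensors on a segment (Look-Compute-Move, neighbour visibility)

There are `m + 2` sensors on the line; sensors `0` and `Fin.last` are the end sensors, which stay
at `0` and `1`.  A *frame* is a nonzero real number `c`: the local coordinate `r` of a sensor at
the global position `p` denotes the global point `p + c * r`, so `|c|` is the sensor's unit of
length and the sign of `c` is its orientation.
-/

namespace Pool.Agent.Q224.AC

open Set

/-- What a sensor perceives, in its own coordinates: the distance to the nearest sensor on its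
(own) left and right (`⊤` if there is none), and the number of other sensors at its own place. -/
structure View where
  left : WithTop ℝ
  right : WithTop ℝ
  here : ℕ

/-- A deterministic protocol of oblivious anonymous sensors: it turns the snapshot into the
destination, in the local coordinates of the sensor (which sits at its own origin). -/
abbrev Protocol : Type := View → ℝ

open Classical in
/-- The snapshot taken by sensor `i` with frame `c` in the configuration `y`. -/
noncomputable def view {m : ℕ} (c : ℝ) (y : Fin (m + 2) → ℝ) (i : Fin (m + 2)) : View where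
  left := ((Finset.univ.image fun j => (y i - y j) / c).filter (0 < ·)).min
  right := ((Finset.univ.image fun j => (y j - y i) / c).filter (0 < ·)).min
  here := (Finset.univ.filter fun j => j ≠ i ∧ y j = y i).card

/-- The destination (a global point) computed by sensor `i` with frame `c` from a snapshot of the
configuration `y`. -/
noncomputable def dest {m : ℕ} (P : Protocol) (c : ℝ) (y : Fin (m + 2) → ℝ) (i : Fin (m + 2)) : ℝ :=
  y i + c * P (view c y i)

/-- The motion `f` on the time interval `[a, b]` is a (possibly shortened) move towards `D`: the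
sensor stays between its starting point and `D`, never increases its distance to `D`, and at the
end it has either reached `D` or travelled at least `δ`. -/
def Move (f : ℝ → ℝ) (a b D δ : ℝ) : Prop :=
  (∀ t ∈ Icc a b, f t ∈ uIcc (f a) D) ∧
  (∀ s ∈ Icc a b, ∀ t ∈ Icc a b, s ≤ t → |f t - D| ≤ |f s - D|) ∧
  (f b = D ∨ δ ≤ |f b - f a|)

/-- Sensor `i` performs infinitely many Look-Compute-Move cycles.  The `k`-th snapshot is taken at
time `look k`, the `k`-th move takes place during `[start k, stop k]`; all phases have finite
positive duration, only finitely many cycles happen in bounded time, and the sensor stands still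
outside its moves. -/
def Cycles {m : ℕ} (P : Protocol) (c δ : ℝ) (x : ℝ → Fin (m + 2) → ℝ) (i : Fin (m + 2)) : Prop :=
  ∃ look start stop : ℕ → ℝ,
    0 ≤ look 0 ∧
    (∀ k, look k < start k ∧ start k < stop k ∧ stop k < look (k + 1)) ∧
    (∀ B : ℝ, ∃ k, B < look k) ∧
    (∀ t, 0 ≤ t → t ≤ start 0 → x t i = x 0 i) ∧
    (∀ k t, stop k ≤ t → t ≤ start (k + 1) → x t i = x (stop k) i) ∧
    (∀ k, Move (fun t => x t i) (start k) (stop k) (dest P c (x (look k)) i) δ)

/-- The admissible ASYNC executions of the protocol `P` for sensors with frames `c`: `x t i` is the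
position of sensor `i` at time `t ≥ 0`. -/
def Admissible {m : ℕ} (P : Protocol) (c : Fin (m + 2) → ℝ) (x : ℝ → Fin (m + 2) → ℝ) : Prop :=
  (∀ i, ContinuousOn (fun t => x t i) (Ici 0)) ∧
  StrictMono (x 0) ∧
  (∀ t, 0 ≤ t → x t 0 = 0 ∧ x t (Fin.last (m + 1)) = 1) ∧
  ∃ δ : ℝ, 0 < δ ∧ ∀ i, i ≠ 0 → i ≠ Fin.last (m + 1) → Cycles P (c i) δ x i

/-- An `ε`-approximate covering: consecutive sensors are at distance `1 / (m + 1)` up to `ε`. -/
def Covered {m : ℕ} (ε : ℝ) (y : Fin (m + 2) → ℝ) : Prop :=
  ∀ i : Fin (m + 1), 1 / ((m : ℝ) + 1) - ε ≤ |y i.succ - y i.castSucc| ∧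
    |y i.succ - y i.castSucc| ≤ 1 / ((m : ℝ) + 1) + ε

/-- The same, but for some renumbering of the sensors. -/
def CoveredUpToOrder {m : ℕ} (ε : ℝ) (y : Fin (m + 2) → ℝ) : Prop :=
  ∃ τ : Equiv.Perm (Fin (m + 2)), Covered ε (fun i => y (τ i))

/-- Approximate covering of the segment is solvable (ASYNC, neighbour visibility). -/
def Solvable : Prop :=
  ∃ P : Protocol, ∀ (m : ℕ) (c : Fin (m + 2) → ℝ), (∀ i, c i ≠ 0) →
    ∀ x : ℝ → Fin (m + 2) → ℝ, Admissible P c x →
      ∀ ε : ℝ, 0 < ε → ∃ t : ℝ, 0 ≤ t ∧ Covered ε (x t)

end Pool.Agent.Q224.AC
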