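import Pool.Agent.Q224.AC.Model

/-!
# Piecewise linear interpolation of a discrete run; cycles from rounds
-/

namespace Pool.Agent.Q224.AC

open Set

/-- `0` up to `1/2`, `1` from `3/4` on, linear in between. -/
noncomputable def ramp (s : ℝ) : ℝ := max 0 (min 1 (4 * s - 2))

theorem ramp_zero {s : ℝ} (h : s ≤ 1 / 2) : ramp s = 0 := by
  unfold ramp
  apply max_eq_left
  exact (min_le_right _ _).trans (by linarith)

theorem ramp_one {s : ℝ} (h : 3 / 4 ≤ s) : ramp s = 1 := by
  unfold ramp
  rw [min_eq_left (by linarith)]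
  norm_num

theorem ramp_nonneg (s : ℝ) : 0 ≤ ramp s := le_max_left _ _

theorem ramp_le_one (s : ℝ) : ramp s ≤ 1 := max_le zero_le_one (min_le_left _ _)

theorem ramp_mono : Monotone ramp := by
  intro s t h
  unfold ramp
  exact max_le_max le_rfl (min_le_min le_rfl (by linarith))

theorem ramp_continuous : Continuous ramp := by
  unfold ramp
  fun_prop

/-- The interpolation of a real sequence: in round `k` (the time interval `[k, k + 1]`) the value
moves from `a k` to `a (k + 1)` during `[k + 1/2, k + 3/4]`. -/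
noncomputable def path (a : ℕ → ℝ) (t : ℝ) : ℝ :=
  a 0 + ∑ k ∈ Finset.range (⌊t⌋₊ + 1), ramp (t - k) * (a (k + 1) - a k)

theorem path_eq_range (a : ℕ → ℝ) (t : ℝ) {N : ℕ} (hN : ⌊t⌋₊ + 1 ≤ N) :
    path a t = a 0 + ∑ k ∈ Finset.range N, ramp (t - k) * (a (k + 1) - a k) := by
  unfold path
  congr 1
  apply Finset.sum_subset
  · intro k hk
    simp only [Finset.mem_range] at hk ⊢
    omega
  · intro k _ hk
    simp only [Finset.mem_range, not_lt] at hk
    have h1 : t < (⌊t⌋₊ : ℝ) + 1 := Nat.lt_floor_add_one t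
    have h2 : ((⌊t⌋₊ + 1 : ℕ) : ℝ) ≤ (k : ℝ) := by exact_mod_cast hk
    push_cast at h2
    rw [ramp_zero (by linarith), zero_mul]

theorem path_eq (a : ℕ → ℝ) (k : ℕ) {t : ℝ} (h1 : (k : ℝ) ≤ t) (h2 : t ≤ k + 1) :
    path a t = a k + ramp (t - k) * (a (k + 1) - a k) := by
  have hfl : ⌊t⌋₊ + 1 ≤ k + 2 := by
    have : ⌊t⌋₊ ≤ k + 1 := by
      have h3 : t ≤ ((k + 1 : ℕ) : ℝ) := by push_cast; exact h2
      exact Nat.floor_le_of_le h3
    omega
  rw [path_eq_range a t hfl, Finset.sum_range_succ, Finset.sum_range_succ]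
  have hz : ramp (t - ((k + 1 : ℕ) : ℝ)) = 0 := ramp_zero (by push_cast; linarith)
  rw [hz, zero_mul, add_zero]
  have hs : ∑ j ∈ Finset.range k, ramp (t - j) * (a (j + 1) - a j) = a k - a 0 := by
    rw [← Finset.sum_range_sub a k]
    apply Finset.sum_congr rfl
    intro j hj
    have hj' : j + 1 ≤ k := Finset.mem_range.1 hj
    have : ((j + 1 : ℕ) : ℝ) ≤ (k : ℝ) := by exact_mod_cast hj'
    push_cast at this
    rw [ramp_one (by linarith), one_mul]
  rw [hs]
  ring

theorem path_natCast (a : ℕ → ℝ) (k : ℕ) : path a k = a k := by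
  rw [path_eq a k le_rfl (by linarith), sub_self, ramp_zero (by norm_num), zero_mul, add_zero]

theorem path_quarter (a : ℕ → ℝ) (k : ℕ) : path a (k + 1 / 4) = a k := by
  rw [path_eq a k (by linarith) (by linarith), ramp_zero (by linarith), zero_mul, add_zero]

theorem path_continuous (a : ℕ → ℝ) : Continuous (path a) := by
  rw [continuous_iff_continuousAt]
  intro t0
  have hc : Continuous (fun t : ℝ => a 0 + ∑ k ∈ Finset.range (⌊t0⌋₊ + 3),
      ramp (t - k) * (a (k + 1) - a k)) := by
    refine continuous_const.add (continuous_finsetSum _ fun k _ => ?_)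
    exact (ramp_continuous.comp (continuous_id.sub continuous_const)).mul continuous_const
  refine hc.continuousAt.congr ?_
  have hU : Iio (t0 + 1) ∈ nhds t0 := Iio_mem_nhds (by linarith)
  filter_upwards [hU] with t ht
  symm
  apply path_eq_range
  have h1 : t < t0 + 1 := ht
  have h2 : t0 < (⌊t0⌋₊ : ℝ) + 1 := Nat.lt_floor_add_one t0
  have h3 : ⌊t⌋₊ < ⌊t0⌋₊ + 3 := by
    by_cases h0 : 0 ≤ t
    · rw [Nat.floor_lt h0]
      push_cast
      linarith
    · rw [Nat.floor_of_nonpos (le_of_lt (not_le.1 h0))]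
      omega
  omega

/-- In a round, the value lies between the values at its two ends. -/
theorem path_mem_uIcc (a : ℕ → ℝ) (k : ℕ) {t : ℝ} (h1 : (k : ℝ) ≤ t) (h2 : t ≤ k + 1) :
    path a t ∈ uIcc (a k) (a (k + 1)) := by
  rw [path_eq a k h1 h2]
  have h3 := ramp_nonneg (t - k)
  have h4 := ramp_le_one (t - k)
  rcases le_total (a k) (a (k + 1)) with h | h
  · rw [uIcc_of_le h]
    constructor <;> nlinarith
  · rw [uIcc_of_ge h]
    constructor <;> nlinarith

theorem exists_round {t : ℝ} (h : 0 ≤ t) : ∃ k : ℕ, (k : ℝ) ≤ t ∧ t ≤ k + 1 :=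
  ⟨⌊t⌋₊, Nat.floor_le h, (Nat.lt_floor_add_one t).le⟩

/-- A sequence that does not move in the rounds `p, …, q - 1` is constant on `p, …, q`. -/
theorem const_of_step (a : ℕ → ℝ) {p q : ℕ} (h : ∀ j, p ≤ j → j < q → a (j + 1) = a j) :
    ∀ j, p ≤ j → j ≤ q → a j = a p := by
  intro j hp
  induction j, hp using Nat.le_induction with
  | base => intro _; rfl
  | succ j hj ih =>
    intro hq
    rw [h j hj (by omega), ih (by omega)]

/-- The value at a time between the end of the move of round `p` and the start of the move of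
round `q`, if nothing moves in between. -/
theorem path_rest (a : ℕ → ℝ) {p q : ℕ} (h : ∀ j, p < j → j < q → a (j + 1) = a j)
    {t : ℝ} (h1 : (p : ℝ) + 3 / 4 ≤ t) (h2 : t ≤ q + 1 / 2) : path a t = a (p + 1) := by
  have hp0 : (0 : ℝ) ≤ p := Nat.cast_nonneg p
  obtain ⟨k, hk1, hk2⟩ := exists_round (t := t) (by linarith)
  have hpk : p ≤ k := by
    have : (p : ℝ) < (k : ℝ) + 1 := by linarith
    have : p < k + 1 := by exact_mod_cast this
    omega
  have hkq : k ≤ q := by
    have : (k : ℝ) < (q : ℝ) + 1 := by linarith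
    have : k < q + 1 := by exact_mod_cast this
    omega
  rw [path_eq a k hk1 hk2]
  rcases Nat.eq_or_lt_of_le hpk with hk | hk
  · subst hk
    rw [ramp_one (by linarith)]
    ring
  · have hc : a k = a (p + 1) :=
      const_of_step a (p := p + 1) (q := q) (fun j hj1 hj2 => h j (by omega) hj2) k hk hkq
    rcases Nat.eq_or_lt_of_le hkq with hk' | hk'
    · rw [ramp_zero (by rw [hk']; linarith), zero_mul, add_zero, hc]
    · rw [h k hk hk', sub_self, mul_zero, add_zero, hc]

theorem path_rest0 (a : ℕ → ℝ) {q : ℕ} (h : ∀ j, j < q → a (j + 1) = a j)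
    {t : ℝ} (h1 : 0 ≤ t) (h2 : t ≤ q + 1 / 2) : path a t = a 0 := by
  obtain ⟨k, hk1, hk2⟩ := exists_round h1
  have hkq : k ≤ q := by
    have : (k : ℝ) < (q : ℝ) + 1 := by linarith
    have : k < q + 1 := by exact_mod_cast this
    omega
  rw [path_eq a k hk1 hk2]
  have hc : a k = a 0 := const_of_step a (p := 0) (q := q) (fun j _ hj2 => h j hj2) k (by omega) hkq
  rcases Nat.eq_or_lt_of_le hkq with hk' | hk'
  · rw [ramp_zero (by rw [hk']; linarith), zero_mul, add_zero, hc]
  · rw [h k hk', sub_self, mul_zero, add_zero, hc]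

theorem move_of_round (a : ℕ → ℝ) (r : ℕ) {D δ : ℝ} (h1 : a (r + 1) ∈ uIcc (a r) D)
    (h2 : a (r + 1) = D ∨ δ ≤ |a (r + 1) - a r|) :
    Move (path a) (r + 1 / 2) (r + 3 / 4) D δ := by
  have hval : ∀ t ∈ Icc ((r : ℝ) + 1 / 2) (r + 3 / 4),
      path a t = a r + ramp (t - r) * (a (r + 1) - a r) := by
    intro t ht
    exact path_eq a r (by linarith [ht.1]) (by linarith [ht.2])
  have hstart : path a (r + 1 / 2) = a r := by
    rw [hval _ ⟨le_rfl, by linarith⟩, ramp_zero (by linarith), zero_mul, add_zero]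
  have hstop : path a (r + 3 / 4) = a (r + 1) := by
    rw [hval _ ⟨by linarith, le_rfl⟩, ramp_one (by linarith)]
    ring
  refine ⟨?_, ?_, ?_⟩
  · intro t ht
    rw [hstart, hval t ht]
    have h3 := ramp_nonneg (t - r)
    have h4 := ramp_le_one (t - r)
    rcases le_total (a r) D with h | h
    · rw [uIcc_of_le h] at h1 ⊢
      obtain ⟨h5, h6⟩ := h1
      constructor <;> nlinarith
    · rw [uIcc_of_ge h] at h1 ⊢
      obtain ⟨h5, h6⟩ := h1
      constructor <;> nlinarith
  · intro s hs t ht hst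
    rw [hval s hs, hval t ht]
    have h3 := ramp_nonneg (s - r)
    have h4 := ramp_le_one (t - r)
    have h5 : ramp (s - r) ≤ ramp (t - r) := ramp_mono (by linarith)
    rcases le_total (a r) D with h | h
    · rw [uIcc_of_le h] at h1
      obtain ⟨h6, h7⟩ := h1
      rw [abs_of_nonpos (by nlinarith), abs_of_nonpos (by nlinarith)]
      nlinarith
    · rw [uIcc_of_ge h] at h1
      obtain ⟨h6, h7⟩ := h1
      rw [abs_of_nonneg (by nlinarith), abs_of_nonneg (by nlinarith)]
      nlinarith
  · rw [hstart, hstop]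
    exact h2

/-- The execution obtained from a discrete run by interpolation. -/
noncomputable def exec {m : ℕ} (X : ℕ → Fin (m + 2) → ℝ) (t : ℝ) (i : Fin (m + 2)) : ℝ :=
  path (fun n => X n i) t

/-- Cycles of a sensor that looks in the rounds `l k` and moves in the rounds `r k`. -/
theorem cycles_of_rounds {m : ℕ} (P : Protocol) (c δ : ℝ) (X : ℕ → Fin (m + 2) → ℝ)
    (i : Fin (m + 2)) (l r : ℕ → ℕ) (hlr : ∀ k, l k ≤ r k) (hrl : ∀ k, r k < l (k + 1))
    (hconst : ∀ t, (∀ k, t ≠ r k) → X (t + 1) i = X t i)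
    (hmove : ∀ k, X (r k + 1) i ∈ uIcc (X (r k) i) (dest P c (X (l k)) i) ∧
      (X (r k + 1) i = dest P c (X (l k)) i ∨ δ ≤ |X (r k + 1) i - X (r k) i|)) :
    Cycles P c δ (exec X) i := by
  have hlmono : ∀ k, k ≤ l k := by
    intro k
    induction k with
    | zero => exact Nat.zero_le _
    | succ k ih =>
      have := hlr k
      have := hrl k
      omega
  have hrmono : StrictMono r := strictMono_nat_of_lt_succ fun k => (hrl k).trans_le (hlr (k + 1))
  refine ⟨fun k => l k + 1 / 4, fun k => r k + 1 / 2, fun k => r k + 3 / 4, ?_, ?_, ?_, ?_, ?_, ?_⟩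
  · positivity
  · intro k
    have h1 : (l k : ℝ) ≤ r k := by exact_mod_cast hlr k
    have h2 : ((r k + 1 : ℕ) : ℝ) ≤ l (k + 1) := by exact_mod_cast hrl k
    push_cast at h2
    refine ⟨by dsimp only; linarith, by dsimp only; linarith, by dsimp only; linarith⟩
  · intro B
    obtain ⟨k, hk⟩ := exists_nat_gt B
    refine ⟨k, ?_⟩
    have : (k : ℝ) ≤ l k := by exact_mod_cast hlmono k
    dsimp only
    linarith
  · intro t ht0 ht
    have h0 : exec X 0 i = X 0 i := by
      have := path_natCast (fun n => X n i) 0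
      simpa [exec] using this
    rw [h0]
    refine path_rest0 (fun n => X n i) (q := r 0) ?_ ht0 ht
    intro j hj
    apply hconst
    intro k hk
    have := hrmono.monotone (Nat.zero_le k)
    omega
  · intro k t ht1 ht2
    have h : ∀ s : ℝ, (r k : ℝ) + 3 / 4 ≤ s → s ≤ r (k + 1) + 1 / 2 →
        exec X s i = X (r k + 1) i := by
      intro s hs1 hs2
      refine path_rest (fun n => X n i) (p := r k) (q := r (k + 1)) ?_ hs1 hs2
      intro j hj1 hj2
      apply hconst
      intro k' hk'
      rw [hk'] at hj1 hj2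
      have h3 : k < k' := hrmono.lt_iff_lt.1 hj1
      have h4 : k' < k + 1 := hrmono.lt_iff_lt.1 hj2
      omega
    have h5 : (r k : ℝ) + 3 / 4 ≤ r (k + 1) + 1 / 2 := by
      have : ((r k + 1 : ℕ) : ℝ) ≤ r (k + 1) := by
        exact_mod_cast (hrmono (Nat.lt_succ_self k))
      push_cast at this
      linarith
    rw [h t ht1 ht2, h _ le_rfl h5]
  · intro k
    have hl : exec X (l k + 1 / 4) = X (l k) := by
      funext j
      exact path_quarter (fun n => X n j) (l k)
    dsimp only
    rw [hl]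
    exact move_of_round (fun n => X n i) (r k) (hmove k).1 (hmove k).2

end Pool.Agent.Q224.AC
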