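import Pool.Agent.Q224.AC.Views

/-!
# Discrete runs: round robin, and the run that crashes two sensors into each other
-/

namespace Pool.Agent.Q224.AC

open Set

/-- The endpoint `v` is allowed for a move from `u` towards `D`. -/
def Allowed (u D δ v : ℝ) : Prop := v ∈ uIcc u D ∧ (v = D ∨ δ ≤ |v - u|)

theorem Allowed.full (u D δ : ℝ) : Allowed u D δ D := ⟨right_mem_uIcc, Or.inl rfl⟩

theorem here_add_one {m : ℕ} (c : ℝ) (y : Fin (m + 2) → ℝ) (i : Fin (m + 2)) :
    (view c y i).here + 1 = Nat.card {k // y k = y i} := by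
  classical
  rw [Nat.card_eq_fintype_card, Fintype.card_subtype]
  unfold view
  simp only
  have h4 : (Finset.univ.filter fun j => j ≠ i ∧ y j = y i) =
      (Finset.univ.filter fun j => y j = y i).erase i := by
    ext j
    simp only [Finset.mem_filter, Finset.mem_univ, true_and, Finset.mem_erase]
  have h5 : ((Finset.univ.filter fun j => y j = y i).erase i).card + 1 =
      (Finset.univ.filter fun j => y j = y i).card := by
    apply Finset.card_erase_add_one
    exact Finset.mem_filter.2 ⟨Finset.mem_univ _, rfl⟩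
  rw [← h4] at h5
  convert h5 using 2

/-- Sensors at the same place with the same frame see the same. -/
theorem view_congr {m : ℕ} (c : ℝ) (y : Fin (m + 2) → ℝ) {i j : Fin (m + 2)} (h : y i = y j) :
    view c y i = view c y j := by
  have h1 := here_add_one c y i
  have h2 := here_add_one c y j
  rw [h] at h1
  have h3 : (view c y i).here = (view c y j).here := by omega
  unfold view at h3 ⊢
  simp only [View.mk.injEq]
  simp only at h3
  refine ⟨by rw [h], by rw [h], h3⟩

/-- Cycles of a sensor that looks and moves in the rounds satisfying `p`. -/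
theorem cycles_of_active {m : ℕ} (P : Protocol) (c δ : ℝ) (X : ℕ → Fin (m + 2) → ℝ)
    (i : Fin (m + 2)) (p : ℕ → Prop) (hinf : {t | p t}.Infinite)
    (hconst : ∀ t, ¬ p t → X (t + 1) i = X t i)
    (hmove : ∀ t, p t → Allowed (X t i) (dest P c (X t) i) δ (X (t + 1) i)) :
    Cycles P c δ (exec X) i := by
  refine cycles_of_rounds P c δ X i (Nat.nth p) (Nat.nth p) (fun _ => le_rfl)
    (fun k => Nat.nth_strictMono hinf (Nat.lt_succ_self k)) ?_ ?_
  · intro t ht
    apply hconst
    intro hp
    have h1 : t ∈ Set.range (Nat.nth p) := by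
      rw [Nat.range_nth_of_infinite hinf]
      exact hp
    obtain ⟨k, hk⟩ := h1
    exact ht k hk.symm
  · intro k
    exact hmove _ (Nat.nth_mem_of_infinite hinf k)

/-- Cycles of a sensor that looks in round `0`, moves in round `K`, and then looks and moves in
the rounds satisfying `p`. -/
theorem cycles_of_late {m : ℕ} (P : Protocol) (c δ : ℝ) (X : ℕ → Fin (m + 2) → ℝ)
    (i : Fin (m + 2)) (K : ℕ) (p : ℕ → Prop) (hinf : {t | p t}.Infinite)
    (hlate : ∀ t, p t → K < t) (hconst : ∀ t, t ≠ K → ¬ p t → X (t + 1) i = X t i)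
    (hK : Allowed (X K i) (dest P c (X 0) i) δ (X (K + 1) i))
    (hmove : ∀ t, p t → Allowed (X t i) (dest P c (X t) i) δ (X (t + 1) i)) :
    Cycles P c δ (exec X) i := by
  refine cycles_of_rounds P c δ X i (fun k => Nat.casesOn k 0 (Nat.nth p))
    (fun k => Nat.casesOn k K (Nat.nth p)) ?_ ?_ ?_ ?_
  · intro k
    cases k with
    | zero => exact Nat.zero_le _
    | succ k => exact le_rfl
  · intro k
    cases k with
    | zero => exact hlate _ (Nat.nth_mem_of_infinite hinf 0)
    | succ k => exact Nat.nth_strictMono hinf (Nat.lt_succ_self k)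
  · intro t ht
    apply hconst
    · exact ht 0
    · intro hp
      have h1 : t ∈ Set.range (Nat.nth p) := by
        rw [Nat.range_nth_of_infinite hinf]
        exact hp
      obtain ⟨k, hk⟩ := h1
      exact ht (k + 1) hk.symm
  · intro k
    cases k with
    | zero => exact hK
    | succ k => exact hmove _ (Nat.nth_mem_of_infinite hinf k)

/-- Round robin over the `M + 1` inner sensors. -/
def rr (M k : ℕ) : Fin (M + 1 + 2) :=
  ⟨k % (M + 1) + 1, by have := Nat.mod_lt k (show 0 < M + 1 by omega); omega⟩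

theorem rr_ne_zero (M k : ℕ) : rr M k ≠ 0 := by
  intro h
  have := congrArg Fin.val h
  simp [rr] at this

theorem rr_ne_last (M k : ℕ) : rr M k ≠ Fin.last (M + 1 + 1) := by
  intro h
  have := congrArg Fin.val h
  simp only [rr, Fin.val_last] at this
  have := Nat.mod_lt k (show 0 < M + 1 by omega)
  omega

theorem rr_infinite (M : ℕ) (i : Fin (M + 1 + 2)) (h0 : i ≠ 0) (h1 : i ≠ Fin.last (M + 1 + 1)) :
    {k | rr M k = i}.Infinite := by
  apply Set.infinite_of_forall_exists_gt
  intro N
  have hi0 : (i : ℕ) ≠ 0 := fun h => h0 (Fin.ext h)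
  have hi1 : (i : ℕ) ≠ M + 2 := fun h => h1 (Fin.ext h)
  have hi2 := i.isLt
  refine ⟨(i : ℕ) - 1 + (M + 1) * (N + 1), ?_, ?_⟩
  · change rr M _ = i
    apply Fin.ext
    simp only [rr]
    rw [Nat.add_mul_mod_self_left, Nat.mod_eq_of_lt (by omega)]
    omega
  · nlinarith [Nat.zero_le M]

/-- The run in which the sensors complete their cycles one after the other (round robin). -/
noncomputable def rigid (P : Protocol) (c : ℝ) {M : ℕ} (z0 : Fin (M + 1 + 2) → ℝ) :
    ℕ → Fin (M + 1 + 2) → ℝ
  | 0 => z0
  | k + 1 => fun i => if i = rr M k then dest P c (rigid P c z0 k) i else rigid P c z0 k i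

theorem exec_zero {m : ℕ} (X : ℕ → Fin (m + 2) → ℝ) : exec X 0 = X 0 := by
  funext i
  have := path_natCast (fun n => X n i) 0
  simpa [exec] using this

theorem exec_const {m : ℕ} (X : ℕ → Fin (m + 2) → ℝ) (i : Fin (m + 2)) {v : ℝ}
    (h : ∀ k, X k i = v) {t : ℝ} (ht : 0 ≤ t) : exec X t i = v := by
  obtain ⟨k, h1, h2⟩ := exists_round ht
  have h3 : exec X t i ∈ uIcc (X k i) (X (k + 1) i) := path_mem_uIcc (fun n => X n i) k h1 h2
  rw [h k, h (k + 1), uIcc_self] at h3
  exact h3

theorem admissible_of_run {m : ℕ} (P : Protocol) (c : ℝ) (X : ℕ → Fin (m + 2) → ℝ) (δ : ℝ)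
    (hδ : 0 < δ) (hmono : StrictMono (X 0)) (hl : ∀ k, X k 0 = 0)
    (hr : ∀ k, X k (Fin.last (m + 1)) = 1)
    (hc : ∀ i, i ≠ 0 → i ≠ Fin.last (m + 1) → Cycles P c δ (exec X) i) :
    Admissible P (fun _ => c) (exec X) := by
  refine ⟨fun i => (path_continuous _).continuousOn, ?_, ?_, δ, hδ, hc⟩
  · rw [exec_zero]
    exact hmono
  · intro t ht
    exact ⟨exec_const X 0 hl ht, exec_const X _ hr ht⟩

theorem rigid_zero (P : Protocol) (c : ℝ) {M : ℕ} (z0 : Fin (M + 1 + 2) → ℝ) (h : z0 0 = 0) :
    ∀ k, rigid P c z0 k 0 = 0 := by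
  intro k
  induction k with
  | zero => exact h
  | succ k ih =>
    simp only [rigid]
    rw [if_neg (fun h => rr_ne_zero M k h.symm), ih]

theorem rigid_last (P : Protocol) (c : ℝ) {M : ℕ} (z0 : Fin (M + 1 + 2) → ℝ)
    (h : z0 (Fin.last (M + 1 + 1)) = 1) :
    ∀ k, rigid P c z0 k (Fin.last (M + 1 + 1)) = 1 := by
  intro k
  induction k with
  | zero => exact h
  | succ k ih =>
    simp only [rigid]
    rw [if_neg (fun h => rr_ne_last M k h.symm), ih]

theorem rigid_admissible (P : Protocol) (c : ℝ) {M : ℕ} (z0 : Fin (M + 1 + 2) → ℝ)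
    (hmono : StrictMono z0) (h0 : z0 0 = 0) (h1 : z0 (Fin.last (M + 1 + 1)) = 1) :
    Admissible P (fun _ => c) (exec (rigid P c z0)) := by
  refine admissible_of_run P c _ 1 one_pos hmono (rigid_zero P c z0 h0) (rigid_last P c z0 h1) ?_
  intro i hi0 hi1
  refine cycles_of_active P c 1 _ i (fun k => rr M k = i) (rr_infinite M i hi0 hi1) ?_ ?_
  · intro t ht
    simp only [rigid]
    rw [if_neg (fun h => ht h.symm)]
  · intro t ht
    have : rigid P c z0 (t + 1) i = dest P c (rigid P c z0 t) i := by
      simp only [rigid]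
      rw [if_pos ht.symm]
    rw [this]
    exact Allowed.full _ _ _

/-! ### The crash run -/

section Crash

variable (P : Protocol) (c p ℓ C : ℝ) {M : ℕ} (z0 : Fin (M + 1 + 2) → ℝ) (K : ℕ)

/-- The sensor that crashes into sensor `1`. -/
def victim (M K : ℕ) : Fin (M + 1 + 1 + 2) := (rr M K).succ

/-- The activations after the crash: round robin, but sensors `1` and `victim` act together. -/
def act (M K k : ℕ) (i : Fin (M + 1 + 1 + 2)) : Prop :=
  i = rr (M + 1) k ∨ (i = 1 ∧ rr (M + 1) k = victim M K) ∨ (i = victim M K ∧ rr (M + 1) k = 1)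

open Classical in
/-- The crash run. -/
noncomputable def crash : ℕ → Fin (M + 1 + 1 + 2) → ℝ
  | 0 => embed p ℓ z0
  | k + 1 => fun i =>
    if k < K then
      (if i = (rr M k).succ then dest P c (crash k) i else crash k i)
    else if k = K then
      (if i = victim M K then C else crash k i)
    else if k = K + 1 then
      (if i = 1 then C else crash k i)
    else if act M K k i then dest P c (crash k) i else crash k i

variable {P c p ℓ C z0 K}

theorem crash_before {k : ℕ} (hk : k < K) (i : Fin (M + 1 + 1 + 2)) :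
    crash P c p ℓ C z0 K (k + 1) i =
      if i = (rr M k).succ then dest P c (crash P c p ℓ C z0 K k) i
      else crash P c p ℓ C z0 K k i := by
  conv_lhs => unfold crash
  rw [if_pos hk]

theorem crash_at (i : Fin (M + 1 + 1 + 2)) :
    crash P c p ℓ C z0 K (K + 1) i =
      if i = victim M K then C else crash P c p ℓ C z0 K K i := by
  conv_lhs => unfold crash
  rw [if_neg (lt_irrefl K), if_pos rfl]

theorem crash_at' (i : Fin (M + 1 + 1 + 2)) :
    crash P c p ℓ C z0 K (K + 2) i =
      if i = 1 then C else crash P c p ℓ C z0 K (K + 1) i := by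
  conv_lhs => unfold crash
  rw [if_neg (by omega), if_neg (by omega), if_pos rfl]

theorem crash_after {k : ℕ} (hk : K + 2 ≤ k) (i : Fin (M + 1 + 1 + 2)) :
    crash P c p ℓ C z0 K (k + 1) i =
      @ite _ (act M K k i) (Classical.propDecidable _) (dest P c (crash P c p ℓ C z0 K k) i)
      (crash P c p ℓ C z0 K k i) := by
  conv_lhs => unfold crash
  rw [if_neg (by omega), if_neg (by omega), if_neg (by omega)]

theorem victim_ne_zero : victim M K ≠ 0 := Fin.succ_ne_zero _

theorem victim_ne_one : victim M K ≠ 1 := by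
  intro h
  apply rr_ne_zero M K
  apply Fin.succ_injective
  exact h

theorem victim_ne_last : victim M K ≠ Fin.last (M + 1 + 1 + 1) := by
  intro h
  apply rr_ne_last M K
  apply Fin.succ_injective
  exact h

theorem act_ne_zero {k : ℕ} {i : Fin (M + 1 + 1 + 2)} (h : act M K k i) : i ≠ 0 := by
  rcases h with h | ⟨h, _⟩ | ⟨h, _⟩
  · rw [h]; exact rr_ne_zero _ _
  · rw [h]; exact one_ne_zero
  · rw [h]; exact victim_ne_zero

theorem one_ne_last : (1 : Fin (M + 1 + 1 + 2)) ≠ Fin.last (M + 1 + 1 + 1) := by
  intro h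
  have := congrArg Fin.val h
  simp at this

theorem act_ne_last {k : ℕ} {i : Fin (M + 1 + 1 + 2)} (h : act M K k i) :
    i ≠ Fin.last (M + 1 + 1 + 1) := by
  rcases h with h | ⟨h, _⟩ | ⟨h, _⟩
  · rw [h]; exact rr_ne_last _ _
  · rw [h]; exact one_ne_last
  · rw [h]; exact victim_ne_last

theorem act_one_iff {k : ℕ} : act M K k 1 ↔ act M K k (victim M K) := by
  unfold act
  constructor
  · rintro (h | ⟨_, h⟩ | ⟨h, _⟩)
    · exact Or.inr (Or.inr ⟨rfl, h.symm⟩)
    · exact Or.inl h.symm
    · exact absurd h.symm victim_ne_one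
  · rintro (h | ⟨h, _⟩ | ⟨_, h⟩)
    · exact Or.inr (Or.inl ⟨rfl, h.symm⟩)
    · exact absurd h victim_ne_one
    · exact Or.inl h.symm

theorem act_infinite (i : Fin (M + 1 + 1 + 2)) (h0 : i ≠ 0) (h1 : i ≠ Fin.last (M + 1 + 1 + 1))
    (N : ℕ) : {k | N ≤ k ∧ act M K k i}.Infinite := by
  apply Set.infinite_of_forall_exists_gt
  intro N'
  obtain ⟨k, hk, hk'⟩ := (rr_infinite (M + 1) i h0 h1).exists_gt (max N N')
  refine ⟨k, ⟨?_, Or.inl hk.symm⟩, ?_⟩
  · exact ((le_max_left N N').trans_lt hk').le
  · exact (le_max_right N N').trans_lt hk'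

/-- The standing assumptions of the crash run. -/
structure CrashData (P : Protocol) (c p ℓ C : ℝ) {M : ℕ} (z0 : Fin (M + 1 + 2) → ℝ) (K : ℕ) :
    Prop where
  hc : c ≠ 0
  hp : 0 < p
  hℓ : 0 < ℓ
  hpℓ : p + ℓ = 1
  hz0 : z0 0 = 0
  hz1 : z0 (Fin.last (M + 1 + 1)) = 1
  hmono : StrictMono z0
  hpC : p < C
  hdest : C ≤ dest P c (embed p ℓ z0) 1
  hfar : ∀ k, k ≤ K → ∀ j, j ≠ 0 → C < p + ℓ * rigid P (c / ℓ) z0 k j
  hnear : p + ℓ * rigid P (c / ℓ) z0 (K + 1) (rr M K) ≤ C

variable (H : CrashData P c p ℓ C z0 K)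

include H

theorem crash_eq_embed : ∀ k, k ≤ K →
    crash P c p ℓ C z0 K k = embed p ℓ (rigid P (c / ℓ) z0 k) := by
  intro k
  induction k with
  | zero => intro _; rfl
  | succ k ih =>
    intro hk
    have ih' := ih (by omega)
    funext i
    rw [crash_before (by omega), ih']
    refine Fin.cases ?_ (fun j => ?_) i
    · rw [if_neg (Fin.succ_ne_zero _).symm]
      rfl
    · rw [embed_succ, embed_succ]
      simp only [rigid]
      by_cases hj : j = rr M k
      · rw [if_pos (by rw [hj]), if_pos hj]
        have hpos : 0 < rigid P (c / ℓ) z0 k j := by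
          have h1 := H.hfar k (by omega) j (by rw [hj]; exact rr_ne_zero M k)
          have h2 := H.hpC
          by_contra h3
          nlinarith [H.hℓ]
        exact dest_embed P H.hc H.hp H.hℓ _ (rigid_zero P _ z0 H.hz0 k) j hpos
      · rw [if_neg (fun h => hj (Fin.succ_injective _ h)), if_neg hj]

theorem crash_zero' : ∀ k, crash P c p ℓ C z0 K k 0 = 0 := by
  intro k
  induction k with
  | zero => rfl
  | succ k ih =>
    rcases lt_trichotomy k K with h | h | h
    · rw [crash_before h, if_neg (Fin.succ_ne_zero _).symm, ih]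
    · subst h
      rw [crash_at, if_neg victim_ne_zero.symm, ih]
    · rcases Nat.eq_or_lt_of_le (Nat.succ_le_of_lt h) with h' | h'
      · have h'' : k = K + 1 := h'.symm
        subst h''
        rw [crash_at', if_neg zero_ne_one, ih]
      · rw [crash_after (by omega), if_neg (fun hact => act_ne_zero hact rfl), ih]

theorem crash_last' : ∀ k, crash P c p ℓ C z0 K k (Fin.last (M + 1 + 1 + 1)) = 1 := by
  intro k
  induction k with
  | zero =>
    change embed p ℓ z0 (Fin.last (M + 1 + 1)).succ = 1
    rw [embed_succ, H.hz1, mul_one, H.hpℓ]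
  | succ k ih =>
    rcases lt_trichotomy k K with h | h | h
    · rw [crash_before h, if_neg, ih]
      intro h2
      exact rr_ne_last M k (Fin.succ_injective _ h2.symm)
    · subst h
      rw [crash_at, if_neg victim_ne_last.symm, ih]
    · rcases Nat.eq_or_lt_of_le (Nat.succ_le_of_lt h) with h' | h'
      · have h'' : k = K + 1 := h'.symm
        subst h''
        rw [crash_at', if_neg one_ne_last.symm, ih]
      · rw [crash_after (by omega), if_neg (fun hact => act_ne_last hact rfl), ih]

theorem crash_one : ∀ k, k ≤ K + 1 → crash P c p ℓ C z0 K k 1 = p := by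
  intro k hk
  rcases Nat.lt_or_ge K k with h | h
  · have : k = K + 1 := by omega
    subst this
    rw [crash_at, if_neg victim_ne_one.symm, crash_eq_embed H K le_rfl]
    change embed p ℓ _ (0 : Fin (M + 1 + 2)).succ = p
    rw [embed_succ, rigid_zero P _ z0 H.hz0, mul_zero, add_zero]
  · rw [crash_eq_embed H k h]
    change embed p ℓ _ (0 : Fin (M + 1 + 2)).succ = p
    rw [embed_succ, rigid_zero P _ z0 H.hz0, mul_zero, add_zero]

theorem crash_ge : ∀ k, k ≤ K + 2 → ∀ i, i ≠ 0 → p ≤ crash P c p ℓ C z0 K k i := by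
  have h1 : ∀ k, k ≤ K → ∀ i, i ≠ 0 → p ≤ crash P c p ℓ C z0 K k i := by
    intro k hk i hi
    rw [crash_eq_embed H k hk]
    obtain ⟨j, rfl⟩ := Fin.exists_succ_eq.2 hi
    rw [embed_succ]
    by_cases hj : j = 0
    · rw [hj, rigid_zero P _ z0 H.hz0, mul_zero, add_zero]
    · have := H.hfar k hk j hj
      linarith [H.hpC]
  have h2 : ∀ i, i ≠ 0 → p ≤ crash P c p ℓ C z0 K (K + 1) i := by
    intro i hi
    rw [crash_at]
    split_ifs
    · exact H.hpC.le
    · exact h1 K le_rfl i hi
  intro k hk i hi
  rcases Nat.lt_or_ge K k with h | h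
  · rcases Nat.lt_or_ge (K + 1) k with h' | h'
    · have : k = K + 2 := by omega
      subst this
      rw [crash_at']
      split_ifs
      · exact H.hpC.le
      · exact h2 i hi
    · have : k = K + 1 := by omega
      subst this
      exact h2 i hi
  · exact h1 k h i hi

omit H in
theorem crash_eq' : ∀ k, K + 2 ≤ k →
    crash P c p ℓ C z0 K k 1 = crash P c p ℓ C z0 K k (victim M K) := by
  intro k hk
  induction k, hk using Nat.le_induction with
  | base =>
    rw [crash_at', if_pos rfl, crash_at', if_neg victim_ne_one, crash_at, if_pos rfl]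
  | succ k hk ih =>
    rw [crash_after hk, crash_after hk]
    by_cases h : act M K k 1
    · rw [if_pos h, if_pos (act_one_iff.1 h)]
      unfold dest
      have hview := view_congr c (crash P c p ℓ C z0 K k) ih
      rw [hview, ih]
    · rw [if_neg h, if_neg (fun h2 => h (act_one_iff.2 h2)), ih]

theorem crash_admissible : Admissible P (fun _ => c) (exec (crash P c p ℓ C z0 K)) := by
  have hv : C < crash P c p ℓ C z0 K K (victim M K) := by
    rw [crash_eq_embed H K le_rfl]
    unfold victim
    rw [embed_succ]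
    exact H.hfar K le_rfl _ (rr_ne_zero M K)
  refine admissible_of_run P c _ (min (C - p) (crash P c p ℓ C z0 K K (victim M K) - C))
    (lt_min (sub_pos.2 H.hpC) (sub_pos.2 hv)) ?_ (crash_zero' H) (crash_last' H) ?_
  · -- the initial configuration
    change StrictMono (embed p ℓ z0)
    intro i j hij
    revert hij
    refine Fin.cases ?_ (fun i => ?_) i <;> refine Fin.cases ?_ (fun j => ?_) j
    · intro h; exact absurd h (lt_irrefl _)
    · intro _
      rw [embed_zero, embed_succ]
      have h1 : z0 0 ≤ z0 j := H.hmono.monotone (Fin.zero_le _)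
      rw [H.hz0] at h1
      nlinarith [H.hp, H.hℓ, mul_nonneg H.hℓ.le h1]
    · intro h; exact absurd h (Fin.not_lt_zero _)
    · intro h
      rw [embed_succ, embed_succ]
      have h1 : z0 i < z0 j := H.hmono (Fin.succ_lt_succ_iff.1 h)
      nlinarith [H.hℓ]
  · intro i hi0 hi1
    by_cases hi : i = 1
    · subst hi
      refine cycles_of_late P c _ _ 1 (K + 1) (fun t => K + 2 ≤ t ∧ act M K t 1)
        (act_infinite 1 hi0 hi1 _) (fun t ht => by omega) ?_ ?_ ?_
      · intro t ht1 ht2
        rcases Nat.lt_or_ge t (K + 1) with h | h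
        · rw [crash_one H _ (by omega), crash_one H _ (by omega)]
        · rw [crash_after (by omega), if_neg]
          intro h3
          exact ht2 ⟨by omega, h3⟩
      · rw [crash_one H _ le_rfl, crash_at', if_pos rfl]
        have h1 : C ≤ dest P c (crash P c p ℓ C z0 K 0) 1 := H.hdest
        refine ⟨?_, Or.inr ?_⟩
        · rw [uIcc_of_le (H.hpC.le.trans h1)]
          exact ⟨H.hpC.le, h1⟩
        · rw [abs_of_pos (sub_pos.2 H.hpC)]
          exact min_le_left _ _
      · rintro t ⟨ht, hact⟩
        rw [crash_after ht, if_pos hact]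
        exact Allowed.full _ _ _
    · refine cycles_of_active P c _ _ i
        (fun t => (t ≤ K ∧ i = (rr M t).succ) ∨ (K + 2 ≤ t ∧ act M K t i)) ?_ ?_ ?_
      · refine (act_infinite (M := M) (K := K) i hi0 hi1 (K + 2)).mono ?_
        intro t ht
        exact Or.inr ht
      · intro t ht
        rcases lt_trichotomy t K with h | h | h
        · rw [crash_before h, if_neg]
          intro h2
          exact ht (Or.inl ⟨h.le, h2⟩)
        · subst h
          rw [crash_at, if_neg]
          intro h2
          exact ht (Or.inl ⟨le_rfl, h2⟩)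
        · rcases Nat.eq_or_lt_of_le (Nat.succ_le_of_lt h) with h' | h'
          · have h'' : t = K + 1 := h'.symm
            subst h''
            rw [crash_at', if_neg hi]
          · rw [crash_after (by omega), if_neg]
            intro h2
            exact ht (Or.inr ⟨by omega, h2⟩)
      · rintro t (⟨h, h2⟩ | ⟨h, h2⟩)
        · rcases Nat.eq_or_lt_of_le h with h' | h'
          · subst h'
            have h3 : i = victim M t := h2
            rw [crash_at, if_pos h3, h3]
            have h4 : dest P c (crash P c p ℓ C z0 t t) (victim M t) ≤ C := by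
              rw [crash_eq_embed H t le_rfl]
              unfold victim
              have hpos : 0 < rigid P (c / ℓ) z0 t (rr M t) := by
                have h1 := H.hfar t le_rfl _ (rr_ne_zero M t)
                have h2 := H.hpC
                by_contra h3
                nlinarith [H.hℓ]
              rw [dest_embed P H.hc H.hp H.hℓ _ (rigid_zero P _ z0 H.hz0 t) _ hpos]
              have h5 := H.hnear
              simp only [rigid] at h5
              rw [if_pos trivial] at h5
              exact h5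
            refine ⟨?_, Or.inr ?_⟩
            · rw [uIcc_of_ge (h4.trans hv.le)]
              exact ⟨h4, hv.le⟩
            · rw [abs_of_neg (sub_neg.2 hv), neg_sub]
              exact min_le_right _ _
          · rw [crash_before h', if_pos h2]
            exact Allowed.full _ _ _
        · rw [crash_after h, if_pos h2]
          exact Allowed.full _ _ _

theorem crash_not_covered {ε : ℝ} (hε : 0 < ε)
    (h1 : 1 / (((M + 1 + 1 : ℕ) : ℝ) + 1) + ε < p)
    (h2 : ((M + 1 + 1 : ℕ) : ℝ) * (1 / (((M + 1 + 1 : ℕ) : ℝ) + 1) + ε) < 1) {t : ℝ} (ht : 0 ≤ t) :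
    ¬ CoveredUpToOrder ε (exec (crash P c p ℓ C z0 K) t) := by
  have e0 : exec (crash P c p ℓ C z0 K) t 0 = 0 := exec_const _ 0 (crash_zero' H) ht
  have e1 : exec (crash P c p ℓ C z0 K) t (Fin.last (M + 1 + 1 + 1)) = 1 :=
    exec_const _ _ (crash_last' H) ht
  obtain ⟨k, hk1, hk2⟩ := exists_round ht
  rcases Nat.lt_or_ge k (K + 2) with h | h
  · intro hcov
    obtain ⟨j, hj, hj'⟩ := exists_near 0 hcov
    have h3 : exec (crash P c p ℓ C z0 K) t j ∈
        uIcc (crash P c p ℓ C z0 K k j) (crash P c p ℓ C z0 K (k + 1) j) :=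
      path_mem_uIcc (fun n => crash P c p ℓ C z0 K n j) k hk1 hk2
    have h4 := crash_ge H k (by omega) j hj
    have h5 := crash_ge H (k + 1) (by omega) j hj
    have h6 : p ≤ exec (crash P c p ℓ C z0 K) t j := (le_min h4 h5).trans h3.1
    rw [e0, sub_zero, abs_of_nonneg (H.hp.le.trans h6)] at hj'
    linarith
  · apply not_covered_of_eq e0 e1 (victim_ne_one (M := M) (K := K)).symm ?_ h2 hε.le
    change path (fun n => crash P c p ℓ C z0 K n 1) t =
      path (fun n => crash P c p ℓ C z0 K n (victim M K)) t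
    rw [path_eq _ k hk1 hk2, path_eq _ k hk1 hk2, crash_eq' k h, crash_eq' (k + 1) (by omega)]

end Crash

end Pool.Agent.Q224.AC
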