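import Pool.Agent.Q224.AC.Path

/-!
# Views: computing them, and comparing them in two worlds; coverings
-/

namespace Pool.Agent.Q224.AC

open Set

theorem min_filter_eq {S : Finset ℝ} {v : ℝ} (hv : v ∈ S) (h0 : 0 < v)
    (hmin : ∀ w ∈ S, 0 < w → v ≤ w) : (S.filter (0 < ·)).min = (v : WithTop ℝ) := by
  apply le_antisymm
  · exact Finset.min_le (Finset.mem_filter.2 ⟨hv, h0⟩)
  · apply Finset.le_min
    intro w hw
    rw [Finset.mem_filter] at hw
    exact WithTop.coe_le_coe.2 (hmin w hw.1 hw.2)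

theorem min_filter_insert {S : Finset ℝ} {v : ℝ} (h : v ≤ 0 ∨ ∃ w ∈ S, 0 < w ∧ w ≤ v) :
    ((insert v S).filter (0 < ·)).min = (S.filter (0 < ·)).min := by
  classical
  by_cases hv : 0 < v
  · obtain ⟨w, hw, hw0, hwv⟩ := h.resolve_left (not_le.2 hv)
    rw [Finset.filter_insert, if_pos hv, Finset.min_insert]
    apply min_eq_right
    exact (Finset.min_le (Finset.mem_filter.2 ⟨hw, hw0⟩)).trans (WithTop.coe_le_coe.2 hwv)
  · rw [Finset.filter_insert, if_neg hv]

/-- The view of a sensor at `p` with nearest neighbours at `p - α` and `p + β`, nobody else at its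
place; frame `c > 0`. -/
theorem view_pos {m : ℕ} {c : ℝ} (hc : 0 < c) (y : Fin (m + 2) → ℝ) (i : Fin (m + 2))
    {α β : ℝ} (hα : 0 < α) (hβ : 0 < β) (hL : ∃ j, y j = y i - α) (hR : ∃ j, y j = y i + β)
    (hL' : ∀ j, y j < y i → y j ≤ y i - α) (hR' : ∀ j, y i < y j → y i + β ≤ y j)
    (hne : ∀ j, j ≠ i → y j ≠ y i) : view c y i = ⟨((α / c : ℝ) : WithTop ℝ), ((β / c : ℝ) : WithTop ℝ), 0⟩ := by
  unfold view
  congr 1
  · apply min_filter_eq
    · obtain ⟨j, hj⟩ := hL
      exact Finset.mem_image.2 ⟨j, Finset.mem_univ _, by rw [hj]; congr 1; ring⟩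
    · positivity
    · intro w hw hw0
      obtain ⟨j, _, rfl⟩ := Finset.mem_image.1 hw
      have h1 : 0 < y i - y j := by
        by_contra h
        exact absurd hw0 (not_lt.2 (div_nonpos_of_nonpos_of_nonneg (not_lt.1 h) hc.le))
      have := hL' j (by linarith)
      gcongr
      linarith
  · apply min_filter_eq
    · obtain ⟨j, hj⟩ := hR
      exact Finset.mem_image.2 ⟨j, Finset.mem_univ _, by rw [hj]; congr 1; ring⟩
    · positivity
    · intro w hw hw0
      obtain ⟨j, _, rfl⟩ := Finset.mem_image.1 hw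
      have h1 : 0 < y j - y i := by
        by_contra h
        exact absurd hw0 (not_lt.2 (div_nonpos_of_nonpos_of_nonneg (not_lt.1 h) hc.le))
      have := hR' j (by linarith)
      gcongr
      linarith
  · rw [Finset.card_eq_zero, Finset.filter_eq_empty_iff]
    intro j _ hj
    exact hne j hj.1 hj.2

theorem view_neg {m : ℕ} {c : ℝ} (hc : 0 < c) (y : Fin (m + 2) → ℝ) (i : Fin (m + 2))
    {α β : ℝ} (hα : 0 < α) (hβ : 0 < β) (hL : ∃ j, y j = y i - α) (hR : ∃ j, y j = y i + β)
    (hL' : ∀ j, y j < y i → y j ≤ y i - α) (hR' : ∀ j, y i < y j → y i + β ≤ y j)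
    (hne : ∀ j, j ≠ i → y j ≠ y i) : view (-c) y i = ⟨((β / c : ℝ) : WithTop ℝ), ((α / c : ℝ) : WithTop ℝ), 0⟩ := by
  have h := view_pos hc y i hα hβ hL hR hL' hR' hne
  unfold view at h ⊢
  simp only [View.mk.injEq] at h ⊢
  obtain ⟨h1, h2, h3⟩ := h
  refine ⟨?_, ?_, h3⟩
  · rw [← h2]
    congr 3
    funext j
    rw [div_neg, ← neg_div, neg_sub]
  · rw [← h1]
    congr 3
    funext j
    rw [div_neg, ← neg_div, neg_sub]

/-- A configuration seen as a part of a larger one: a new left end at `0`, and the old segment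
`[0, 1]` placed at `[p, p + ℓ]`. -/
noncomputable def embed {m : ℕ} (p ℓ : ℝ) (z : Fin (m + 2) → ℝ) : Fin (m + 1 + 2) → ℝ :=
  Fin.cons 0 (fun j => p + ℓ * z j)

theorem embed_zero {m : ℕ} (p ℓ : ℝ) (z : Fin (m + 2) → ℝ) : embed p ℓ z 0 = 0 := rfl

theorem embed_succ {m : ℕ} (p ℓ : ℝ) (z : Fin (m + 2) → ℝ) (j : Fin (m + 2)) :
    embed p ℓ z j.succ = p + ℓ * z j := rfl

theorem image_fin_succ {n : ℕ} (f : Fin (n + 1) → ℝ) :
    Finset.univ.image f = insert (f 0) (Finset.univ.image fun j : Fin n => f j.succ) := by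
  ext v
  simp only [Finset.mem_image, Finset.mem_univ, true_and, Finset.mem_insert]
  constructor
  · rintro ⟨j, rfl⟩
    refine Fin.cases ?_ (fun j => ?_) j
    · exact Or.inl rfl
    · exact Or.inr ⟨j, rfl⟩
  · rintro (rfl | ⟨j, rfl⟩)
    · exact ⟨0, rfl⟩
    · exact ⟨j.succ, rfl⟩

theorem view_embed {m : ℕ} {c p ℓ : ℝ} (hc : c ≠ 0) (hp : 0 < p) (hℓ : 0 < ℓ)
    (z : Fin (m + 2) → ℝ) (hz0 : z 0 = 0) (j : Fin (m + 2)) (hj : 0 < z j) :
    view c (embed p ℓ z) j.succ = view (c / ℓ) z j := by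
  have hval : ∀ a b : ℝ, ((p + ℓ * a) - (p + ℓ * b)) / c = (a - b) / (c / ℓ) := by
    intro a b
    field_simp
    ring
  unfold view
  congr 1
  · rw [image_fin_succ]
    simp only [embed_zero, embed_succ, hval]
    apply min_filter_insert
    rcases lt_or_gt_of_ne hc with h | h
    · left
      apply div_nonpos_of_nonneg_of_nonpos _ h.le
      nlinarith [mul_pos hℓ hj]
    · right
      refine ⟨(z j - z 0) / (c / ℓ), Finset.mem_image.2 ⟨0, Finset.mem_univ _, rfl⟩, ?_, ?_⟩
      · rw [hz0, sub_zero]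
        positivity
      · rw [hz0, ← hval, sub_zero]
        gcongr
        linarith
  · rw [image_fin_succ]
    simp only [embed_zero, embed_succ, hval]
    apply min_filter_insert
    rcases lt_or_gt_of_ne hc with h | h
    · right
      refine ⟨(z 0 - z j) / (c / ℓ), Finset.mem_image.2 ⟨0, Finset.mem_univ _, rfl⟩, ?_, ?_⟩
      · rw [hz0, zero_sub]
        apply div_pos_of_neg_of_neg (by linarith)
        exact div_neg_of_neg_of_pos h hℓ
      · rw [hz0, ← hval, mul_zero, add_zero, div_le_div_right_of_neg h]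
        linarith
    · left
      apply div_nonpos_of_nonpos_of_nonneg _ h.le
      nlinarith [mul_pos hℓ hj]
  · rw [Finset.card_filter, Finset.card_filter, Fin.sum_univ_succ]
    have h0 : ¬ ((0 : Fin (m + 1 + 2)) ≠ j.succ ∧ embed p ℓ z 0 = embed p ℓ z j.succ) := by
      rintro ⟨_, h⟩
      rw [embed_zero, embed_succ] at h
      nlinarith [mul_pos hℓ hj]
    rw [if_neg h0, zero_add]
    apply Finset.sum_congr rfl
    intro k _
    have hiff : (k.succ ≠ j.succ ∧ embed p ℓ z k.succ = embed p ℓ z j.succ) ↔ (k ≠ j ∧ z k = z j) := by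
      rw [embed_succ, embed_succ, Ne, Fin.succ_inj]
      constructor
      · rintro ⟨h1, h2⟩
        refine ⟨h1, ?_⟩
        have h3 : ℓ * z k = ℓ * z j := by linarith
        exact mul_left_cancel₀ hℓ.ne' h3
      · rintro ⟨h1, h2⟩
        exact ⟨h1, by rw [h2]⟩
    exact if_congr hiff rfl rfl

theorem dest_embed {m : ℕ} (P : Protocol) {c p ℓ : ℝ} (hc : c ≠ 0) (hp : 0 < p) (hℓ : 0 < ℓ)
    (z : Fin (m + 2) → ℝ) (hz0 : z 0 = 0) (j : Fin (m + 2)) (hj : 0 < z j) :
    dest P c (embed p ℓ z) j.succ = p + ℓ * dest P (c / ℓ) z j := by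
  unfold dest
  rw [view_embed hc hp hℓ z hz0 j hj, embed_succ]
  field_simp
  ring

/-! ### Coverings -/

/-- In a covering every sensor has a neighbour. -/
theorem exists_near {m : ℕ} {ε : ℝ} {y : Fin (m + 2) → ℝ} (a : Fin (m + 2))
    (h : CoveredUpToOrder ε y) : ∃ j, j ≠ a ∧ |y j - y a| ≤ 1 / ((m : ℝ) + 1) + ε := by
  obtain ⟨τ, hτ⟩ := h
  set p := τ.symm a with hp
  have hτp : τ p = a := by rw [hp, Equiv.apply_symm_apply]
  rcases Fin.eq_castSucc_or_eq_last p with ⟨q, hq⟩ | hq
  · have h1 : |y (τ q.succ) - y (τ q.castSucc)| ≤ 1 / ((m : ℝ) + 1) + ε := (hτ q).2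
    rw [← hq, hτp] at h1
    refine ⟨τ q.succ, ?_, h1⟩
    intro h2
    have h3 : q.succ = p := by
      apply τ.injective
      rw [h2, hτp]
    rw [hq] at h3
    exact absurd h3 (Fin.castSucc_lt_succ).ne'
  · have h1 : |y (τ (Fin.last m).succ) - y (τ (Fin.last m).castSucc)| ≤ 1 / ((m : ℝ) + 1) + ε :=
      (hτ (Fin.last m)).2
    have h2 : (Fin.last m).succ = p := by rw [hq]; rfl
    rw [h2, hτp, abs_sub_comm] at h1
    refine ⟨τ (Fin.last m).castSucc, ?_, h1⟩
    intro h3
    have h4 : (Fin.last m).castSucc = p := by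
      apply τ.injective
      rw [h3, hτp]
    rw [← h2] at h4
    exact absurd h4 (Fin.castSucc_lt_succ).ne

/-- Two sensors at the same place exclude a covering. -/
theorem not_covered_of_eq {m : ℕ} {ε : ℝ} {y : Fin (m + 2) → ℝ} (h0 : y 0 = 0)
    (h1 : y (Fin.last (m + 1)) = 1) {i j : Fin (m + 2)} (hij : i ≠ j) (hy : y i = y j)
    (hε : (m : ℝ) * (1 / ((m : ℝ) + 1) + ε) < 1) (hε0 : 0 ≤ ε) : ¬ CoveredUpToOrder ε y := by
  rintro ⟨τ, hτ⟩
  set b : ℝ := 1 / ((m : ℝ) + 1) + ε with hb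
  have hb0 : 0 ≤ b := by positivity
  -- the sequence of positions along the order `τ`
  let u : ℕ → ℝ := fun n => if h : n < m + 2 then y (τ ⟨n, h⟩) else 0
  have hu : ∀ q : Fin (m + 2), u q = y (τ q) := by
    intro q
    simp [u, q.isLt]
  have hstep : ∀ n, n < m + 1 → |u (n + 1) - u n| ≤ b := by
    intro n hn
    have h2 := (hτ ⟨n, hn⟩).2
    have h3 : u (n + 1) = y (τ (Fin.succ ⟨n, hn⟩)) := hu (Fin.succ ⟨n, hn⟩)
    have h4 : u n = y (τ (Fin.castSucc ⟨n, hn⟩)) := hu (Fin.castSucc ⟨n, hn⟩)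
    rw [h3, h4]
    exact h2
  have hchain : ∀ a d : ℕ, a + d ≤ m + 1 → |u (a + d) - u a| ≤ d * b := by
    intro a d
    induction d with
    | zero => intro _; simp
    | succ d ih =>
      intro hd
      have h2 := ih (by omega)
      have h3 := hstep (a + d) (by omega)
      have h4 : |u (a + (d + 1)) - u a| ≤ |u (a + d + 1) - u (a + d)| + |u (a + d) - u a| := by
        rw [← add_assoc]
        exact abs_sub_le _ _ _
      push_cast
      linarith
  have hchain' : ∀ a e : ℕ, a ≤ e → e ≤ m + 1 → |u e - u a| ≤ ((e : ℝ) - a) * b := by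
    intro a e hae he
    obtain ⟨d, rfl⟩ := Nat.exists_eq_add_of_le hae
    have := hchain a d he
    push_cast
    convert this using 2
    ring
  -- the two ends are the two extreme sensors
  set p := τ.symm 0 with hp
  set q := τ.symm (Fin.last (m + 1)) with hq
  have hup : u p = 0 := by rw [hu, hp, Equiv.apply_symm_apply, h0]
  have huq : u q = 1 := by rw [hu, hq, Equiv.apply_symm_apply, h1]
  have hpn : (p : ℕ) ≤ m + 1 := by have := p.isLt; omega
  have hqn : (q : ℕ) ≤ m + 1 := by have := q.isLt; omega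
  have hends : |u (m + 1) - u 0| = 1 := by
    rcases le_total (p : ℕ) (q : ℕ) with hle | hle
    · have h2 := hchain' p q hle hqn
      rw [hup, huq] at h2
      norm_num at h2
      have h3 : m + 1 ≤ (q : ℕ) - p := by
        by_contra hcon
        have h4 : (q : ℕ) - p ≤ m := by omega
        have h5 : ((q : ℕ) : ℝ) - (p : ℕ) ≤ m := by
          have : (((q : ℕ) - (p : ℕ) : ℕ) : ℝ) ≤ m := by exact_mod_cast h4
          rw [Nat.cast_sub hle] at this
          exact this
        nlinarith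
      have h6 : (p : ℕ) = 0 := by omega
      have h7 : (q : ℕ) = m + 1 := by omega
      rw [← h7, huq, ← h6, hup]
      norm_num
    · have h2 := hchain' q p hle hpn
      rw [hup, huq] at h2
      norm_num at h2
      have h3 : m + 1 ≤ (p : ℕ) - q := by
        by_contra hcon
        have h4 : (p : ℕ) - q ≤ m := by omega
        have h5 : ((p : ℕ) : ℝ) - (q : ℕ) ≤ m := by
          have : (((p : ℕ) - (q : ℕ) : ℕ) : ℝ) ≤ m := by exact_mod_cast h4
          rw [Nat.cast_sub hle] at this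
          exact this
        nlinarith
      have h6 : (q : ℕ) = 0 := by omega
      have h7 : (p : ℕ) = m + 1 := by omega
      rw [← h7, hup, ← h6, huq]
      norm_num
  -- the two sensors at the same place
  have key : ∀ a e : ℕ, a < e → e ≤ m + 1 → u a = u e → False := by
    intro a e hae he huae
    have h2 := hchain' 0 a (Nat.zero_le _) (by omega)
    have h3 := hchain' e (m + 1) he le_rfl
    have h4 : |u (m + 1) - u 0| ≤ |u (m + 1) - u e| + |u a - u 0| := by
      rw [huae]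
      exact abs_sub_le _ _ _
    have h5 : (a : ℝ) + 1 ≤ e := by exact_mod_cast hae
    push_cast at h2 h3
    rw [hends] at h4
    nlinarith
  have hi := hu (τ.symm i)
  have hj := hu (τ.symm j)
  rw [Equiv.apply_symm_apply] at hi hj
  have hne : ((τ.symm i : Fin (m + 2)) : ℕ) ≠ ((τ.symm j : Fin (m + 2)) : ℕ) := by
    intro h
    exact hij (τ.symm.injective (Fin.ext h))
  have hin : ((τ.symm i : Fin (m + 2)) : ℕ) ≤ m + 1 := by have := (τ.symm i).isLt; omega
  have hjn : ((τ.symm j : Fin (m + 2)) : ℕ) ≤ m + 1 := by have := (τ.symm j).isLt; omega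
  rcases lt_or_gt_of_ne hne with h | h
  · exact key _ _ h hjn (by rw [hi, hj, hy])
  · exact key _ _ h hin (by rw [hi, hj, hy])

end Pool.Agent.Q224.AC
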